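import Mathlib

/-!
A Mycielski type lemma in compact Hausdorff spaces: a sequence of closed relations without
interior admits a Cantor family of points which eventually avoid them.
-/

namespace Pool.Agent.W620.FL
open Set

section
variable {W : Type*} [TopologicalSpace W] [T2Space W] [CompactSpace W]

theorem shrink_closure {U : Set W} (hU : IsOpen U) {u : W} (hu : u ∈ U) :
    ∃ V : Set W, IsOpen V ∧ u ∈ V ∧ closure V ⊆ U := by
  obtain ⟨V, hV, hVc, hVU⟩ := exists_mem_nhds_isClosed_subset (hU.mem_nhds hu)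
  refine ⟨interior V, isOpen_interior, mem_interior_iff_mem_nhds.2 hV, ?_⟩
  exact (closure_minimal interior_subset hVc).trans hVU

/-- one pair -/
theorem shrink_pair {E : Set (W × W)} (hE : IsClosed E) {V0 : Set W}
    (hnd : ∀ U V : Set W, IsOpen U → IsOpen V → U.Nonempty → V.Nonempty → U ⊆ V0 → V ⊆ V0 →
      ∃ u ∈ U, ∃ v ∈ V, (u, v) ∉ E)
    {U V : Set W} (hU : IsOpen U) (hV : IsOpen V) (hUn : U.Nonempty) (hVn : V.Nonempty)
    (hU0 : U ⊆ V0) (hV0 : V ⊆ V0) :
    ∃ U' V' : Set W, IsOpen U' ∧ IsOpen V' ∧ U'.Nonempty ∧ V'.Nonempty ∧ U' ⊆ U ∧ V' ⊆ V ∧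
      ∀ u ∈ U', ∀ v ∈ V', (u, v) ∉ E := by
  obtain ⟨u, hu, v, hv, huv⟩ := hnd U V hU hV hUn hVn hU0 hV0
  have h1 : Eᶜ ∈ nhds (u, v) := hE.isOpen_compl.mem_nhds huv
  rw [mem_nhds_prod_iff'] at h1
  obtain ⟨A, B, hA, huA, hB, hvB, hAB⟩ := h1
  refine ⟨U ∩ A, V ∩ B, hU.inter hA, hV.inter hB, ⟨u, hu, huA⟩, ⟨v, hv, hvB⟩, inter_subset_left,
    inter_subset_left, ?_⟩
  rintro u' ⟨-, hu'⟩ v' ⟨-, hv'⟩ h
  exact hAB (mk_mem_prod hu' hv') h

/-- a finite family -/
theorem shrink_family {E : Set (W × W)} (hE : IsClosed E) {V0 : Set W}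
    (hnd : ∀ U V : Set W, IsOpen U → IsOpen V → U.Nonempty → V.Nonempty → U ⊆ V0 → V ⊆ V0 →
      ∃ u ∈ U, ∃ v ∈ V, (u, v) ∉ E)
    {I : Type} [Fintype I] [DecidableEq I] (U : I → Set W)
    (hU : ∀ i, IsOpen (U i) ∧ (U i).Nonempty ∧ U i ⊆ V0) :
    ∃ U' : I → Set W, (∀ i, IsOpen (U' i) ∧ (U' i).Nonempty ∧ U' i ⊆ V0) ∧
      (∀ i, closure (U' i) ⊆ U i) ∧
      ∀ i j, i ≠ j → ∀ u ∈ closure (U' i), ∀ v ∈ closure (U' j), (u, v) ∉ E := by
  have key : ∀ P : Finset (I × I), ∃ U' : I → Set W,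
      (∀ i, IsOpen (U' i) ∧ (U' i).Nonempty ∧ U' i ⊆ U i) ∧
      ∀ p ∈ P, p.1 ≠ p.2 → ∀ u ∈ U' p.1, ∀ v ∈ U' p.2, (u, v) ∉ E := by
    intro P
    induction P using Finset.induction_on with
    | empty => exact ⟨U, fun i => ⟨(hU i).1, (hU i).2.1, Subset.rfl⟩, by simp⟩
    | insert p P hp ih =>
      obtain ⟨U', hU', hsep⟩ := ih
      by_cases hne : p.1 = p.2
      · refine ⟨U', hU', fun q hq hq' => ?_⟩
        rcases Finset.mem_insert.1 hq with rfl | hq
        · exact absurd hne hq'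
        · exact hsep q hq hq'
      · obtain ⟨A, B, hA, hB, hAn, hBn, hAU, hBU, hAB⟩ := shrink_pair hE hnd (hU' p.1).1
          (hU' p.2).1 (hU' p.1).2.1 (hU' p.2).2.1 ((hU' p.1).2.2.trans (hU p.1).2.2)
          ((hU' p.2).2.2.trans (hU p.2).2.2)
        set U'' : I → Set W := Function.update (Function.update U' p.1 A) p.2 B with hU''
        have hsub : ∀ i, U'' i ⊆ U' i := by
          intro i
          rw [hU'']
          by_cases h2 : i = p.2
          · subst h2; rw [Function.update_self]; exact hBU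
          · rw [Function.update_of_ne h2]
            by_cases h1 : i = p.1
            · subst h1; rw [Function.update_self]; exact hAU
            · rw [Function.update_of_ne h1]
        have e1 : U'' p.1 = A := by
          rw [hU'', Function.update_of_ne hne, Function.update_self]
        have e2 : U'' p.2 = B := by
          rw [hU'', Function.update_self]
        refine ⟨U'', fun i => ?_, fun q hq hq' u hu v hv => ?_⟩
        · refine ⟨?_, ?_, (hsub i).trans (hU' i).2.2⟩
          · rw [hU'']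
            by_cases h2 : i = p.2
            · subst h2; rw [Function.update_self]; exact hB
            · rw [Function.update_of_ne h2]
              by_cases h1 : i = p.1
              · subst h1; rw [Function.update_self]; exact hA
              · rw [Function.update_of_ne h1]; exact (hU' i).1
          · rw [hU'']
            by_cases h2 : i = p.2
            · subst h2; rw [Function.update_self]; exact hBn
            · rw [Function.update_of_ne h2]
              by_cases h1 : i = p.1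
              · subst h1; rw [Function.update_self]; exact hAn
              · rw [Function.update_of_ne h1]; exact (hU' i).2.1
        · rcases Finset.mem_insert.1 hq with rfl | hq
          · rw [e1] at hu; rw [e2] at hv
            exact hAB u hu v hv
          · exact hsep q hq hq' u (hsub _ hu) v (hsub _ hv)
  obtain ⟨U', hU', hsep⟩ := key Finset.univ
  choose pt hpt using fun i => (hU' i).2.1
  choose V hVo hVp hVc using fun i => shrink_closure (hU' i).1 (hpt i)
  refine ⟨V, fun i => ⟨hVo i, ⟨pt i, hVp i⟩, ?_⟩, fun i => (hVc i).trans (hU' i).2.2, ?_⟩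
  · exact subset_closure.trans ((hVc i).trans ((hU' i).2.2.trans (hU i).2.2))
  · intro i j hij u hu v hv
    exact hsep (i, j) (Finset.mem_univ _) hij u (hVc i hu) v (hVc j hv)

/-- the Cantor family -/
theorem mycielski (E : ℕ → Set (W × W)) (hE : ∀ n, IsClosed (E n)) {V0 : Set W}
    (hV0 : IsOpen V0) (hV0n : V0.Nonempty)
    (hnd : ∀ n, ∀ U V : Set W, IsOpen U → IsOpen V → U.Nonempty → V.Nonempty → U ⊆ V0 → V ⊆ V0 →
      ∃ u ∈ U, ∃ v ∈ V, (u, v) ∉ E n) :
    ∃ Φ : (ℕ → Bool) → W, ∀ x y, x ≠ y → ∃ N, ∀ n, N ≤ n → (Φ x, Φ y) ∉ E n := by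
  have step : ∀ (n : ℕ) (U : {U : (Fin n → Bool) → Set W //
        ∀ s, IsOpen (U s) ∧ (U s).Nonempty ∧ U s ⊆ V0}),
      ∃ U' : {U : (Fin (n + 1) → Bool) → Set W //
        ∀ s, IsOpen (U s) ∧ (U s).Nonempty ∧ U s ⊆ V0},
        (∀ s, closure (U'.1 s) ⊆ U.1 (fun i => s i.castSucc)) ∧
        ∀ s t, s ≠ t → ∀ u ∈ closure (U'.1 s), ∀ v ∈ closure (U'.1 t), (u, v) ∉ E n := by
    intro n U
    obtain ⟨U', h1, h2, h3⟩ := shrink_family (hE n) (hnd n) (I := Fin (n + 1) → Bool)
      (fun s => U.1 (fun i => s i.castSucc)) (fun s => U.2 _)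
    exact ⟨⟨U', h1⟩, h2, h3⟩
  choose next hnext1 hnext2 using step
  let seq : ∀ n : ℕ, {U : (Fin n → Bool) → Set W //
        ∀ s, IsOpen (U s) ∧ (U s).Nonempty ∧ U s ⊆ V0} :=
    fun n => Nat.rec ⟨fun _ => V0, fun _ => ⟨hV0, hV0n, Subset.rfl⟩⟩ (fun n U => next n U) n
  have hseq1 : ∀ n (s : Fin (n + 1) → Bool), closure ((seq (n + 1)).1 s) ⊆
      (seq n).1 (fun i => s i.castSucc) := fun n s => hnext1 n (seq n) s
  have hseq2 : ∀ n (s t : Fin (n + 1) → Bool), s ≠ t → ∀ u ∈ closure ((seq (n + 1)).1 s),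
      ∀ v ∈ closure ((seq (n + 1)).1 t), (u, v) ∉ E n := fun n s t => hnext2 n (seq n) s t
  have hpt : ∀ x : ℕ → Bool, (⋂ n, closure ((seq n).1 (fun i : Fin n => x i))).Nonempty := by
    intro x
    refine IsCompact.nonempty_iInter_of_sequence_nonempty_isCompact_isClosed _ ?_ ?_ ?_ ?_
    · intro n
      exact (hseq1 n (fun i : Fin (n + 1) => x i)).trans subset_closure
    · intro n
      exact ((seq n).2 _).2.1.closure
    · exact isClosed_closure.isCompact
    · intro n; exact isClosed_closure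
  choose Φ hΦ using hpt
  refine ⟨Φ, fun x y hxy => ?_⟩
  obtain ⟨k, hk⟩ := Function.ne_iff.1 hxy
  refine ⟨k, fun n hn => ?_⟩
  refine hseq2 n (fun i => x i) (fun i => y i) ?_ _ (mem_iInter.1 (hΦ x) (n + 1)) _
    (mem_iInter.1 (hΦ y) (n + 1))
  intro h
  exact hk (congrFun h ⟨k, by omega⟩)

end

end Pool.Agent.W620.FL
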