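import Mathlib

/-!
Closed invariant families of parametrised flats and minimal such families.
-/

namespace Pool.Agent.W620.FL
open Set

section
variable {X : Type*} [MetricSpace X] {G : Type*} [Group G] [MulAction G X]

/-- closed invariant sets of parametrised flats -/
structure Inv (G : Type*) [Group G] [MulAction G X] (S : Set (ℂ → X)) : Prop where
  closed : IsClosed S
  isom : ∀ h ∈ S, Isometry h
  smul : ∀ h ∈ S, ∀ g : G, (fun p => g • h p) ∈ S
  comp : ∀ h ∈ S, ∀ e : ℂ ≃ᵢ ℂ, (fun p => h (e p)) ∈ S

theorem isClosed_isom : IsClosed {h : ℂ → X | Isometry h} := by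
  have : {h : ℂ → X | Isometry h} = ⋂ x : ℂ, ⋂ y : ℂ, {h | dist (h x) (h y) = dist x y} := by
    ext h
    simp only [mem_ofPred_eq, mem_iInter]
    exact ⟨fun hh x y => hh.dist_eq x y, fun hh => Isometry.of_dist_eq hh⟩
  rw [this]
  exact isClosed_iInter fun x => isClosed_iInter fun y =>
    isClosed_eq ((continuous_apply x).dist (continuous_apply y)) continuous_const

theorem compact_PK [ProperSpace X] {K : Set X} (x0 : X) (hK : IsCompact K) {S : Set (ℂ → X)}
    (hS : Inv G S) : IsCompact {h : ℂ → X | h ∈ S ∧ h 0 ∈ K} := by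
  obtain ⟨R, hR⟩ := hK.isBounded.subset_closedBall x0
  have h1 : IsCompact (Set.pi univ (fun p : ℂ => Metric.closedBall x0 (R + dist p 0))) :=
    isCompact_univ_pi fun p => isCompact_closedBall _ _
  refine h1.of_isClosed_subset ?_ ?_
  · exact hS.closed.inter (hK.isClosed.preimage (continuous_apply (0 : ℂ)))
  · rintro h ⟨hh, h0⟩ p -
    rw [Metric.mem_closedBall]
    have h2 := hR h0
    rw [Metric.mem_closedBall] at h2
    have h3 := (hS.isom h hh).dist_eq p 0
    calc dist (h p) x0 ≤ dist (h p) (h 0) + dist (h 0) x0 := dist_triangle _ _ _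
      _ ≤ R + dist p 0 := by linarith

theorem inv_closure [IsIsometricSMul G X] (f : ℂ → X) :
    Inv G (closure {h : ℂ → X | Isometry h ∧ ∃ g : G, range h = (fun x => g • x) '' range f}) where
  closed := isClosed_closure
  isom := by
    have : closure {h : ℂ → X | Isometry h ∧ ∃ g : G, range h = (fun x => g • x) '' range f} ⊆
        {h : ℂ → X | Isometry h} :=
      closure_minimal (fun h hh => hh.1) isClosed_isom
    exact fun h hh => this hh
  smul := by
    intro h hh g
    refine map_mem_closure (f := fun (h : ℂ → X) (p : ℂ) => g • h p) ?_ hh ?_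
    · exact continuous_pi fun p => (isometry_smul X g).continuous.comp (continuous_apply p)
    · rintro h ⟨h1, g', h2⟩
      refine ⟨(isometry_smul X g).comp h1, g * g', ?_⟩
      ext x
      constructor
      · rintro ⟨p, rfl⟩
        have : h p ∈ (fun x => g' • x) '' range f := by rw [← h2]; exact mem_range_self p
        obtain ⟨y, hy, hyy⟩ := this
        refine ⟨y, hy, ?_⟩
        simp only [mul_smul]
        simp only at hyy
        rw [hyy]
      · rintro ⟨y, hy, rfl⟩
        have : g' • y ∈ range h := by rw [h2]; exact ⟨y, hy, rfl⟩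
        obtain ⟨p, hp⟩ := this
        refine ⟨p, ?_⟩
        simp only [mul_smul]
        rw [hp]
  comp := by
    intro h hh e
    refine map_mem_closure (f := fun (h : ℂ → X) (p : ℂ) => h (e p)) ?_ hh ?_
    · exact continuous_pi fun p => continuous_apply (e p)
    · rintro h ⟨h1, g', h2⟩
      refine ⟨h1.comp e.isometry, g', ?_⟩
      rw [← h2]
      exact e.surjective.range_comp h

theorem exists_minimal [ProperSpace X] (x0 : X) {K : Set X} (hK : IsCompact K)
    (hGK : ∀ x : X, ∃ g : G, g • x ∈ K) {S : Set (ℂ → X)} (hS : Inv G S) (hne : S.Nonempty) :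
    ∃ M ⊆ S, Minimal (fun T : Set (ℂ → X) => Inv G T ∧ T.Nonempty) M := by
  refine zorn_superset_nonempty {T : Set (ℂ → X) | Inv G T ∧ T.Nonempty} ?_ S ⟨hS, hne⟩
  intro c hc hchain hcne
  refine ⟨⋂₀ c, ⟨?_, ?_⟩, fun s hs => sInter_subset_of_mem hs⟩
  · exact {
      closed := isClosed_sInter fun s hs => (hc hs).1.closed
      isom := by
        intro h hh
        obtain ⟨s, hs⟩ := hcne
        exact (hc hs).1.isom h (hh s hs)
      smul := fun h hh g s hs => (hc hs).1.smul h (hh s hs) g
      comp := fun h hh e s hs => (hc hs).1.comp h (hh s hs) e }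
  · have : Nonempty c := hcne.to_subtype
    have key : (⋂ s : c, {h : ℂ → X | h ∈ (s : Set (ℂ → X)) ∧ h 0 ∈ K}).Nonempty := by
      refine IsCompact.nonempty_iInter_of_directed_nonempty_isCompact_isClosed _ ?_ ?_ ?_ ?_
      · intro s t
        rcases hchain.total s.2 t.2 with h | h
        · exact ⟨s, fun x hx => hx, fun x hx => ⟨h hx.1, hx.2⟩⟩
        · exact ⟨t, fun x hx => ⟨h hx.1, hx.2⟩, fun x hx => hx⟩
      · intro s
        obtain ⟨h, hh⟩ := (hc s.2).2
        obtain ⟨g, hg⟩ := hGK (h 0)
        exact ⟨_, (hc s.2).1.smul h hh g, hg⟩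
      · intro s
        exact compact_PK x0 hK (hc s.2).1
      · intro s
        exact (compact_PK x0 hK (hc s.2).1).isClosed
    obtain ⟨h, hh⟩ := key
    refine ⟨h, fun s hs => ?_⟩
    exact (mem_iInter.1 hh ⟨s, hs⟩).1

end

end Pool.Agent.W620.FL
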