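import Mathlib

/-!
Isometries of the Euclidean plane, realised as the complex numbers.
-/

namespace Pool.Agent.W620.FL
open Complex

/-- the isometries of the plane -/
theorem isom_form (e : ℂ ≃ᵢ ℂ) : (∃ a b : ℂ, ‖a‖ = 1 ∧ ∀ z, e z = a * z + b) ∨
    (∃ a b : ℂ, ‖a‖ = 1 ∧ ∀ z, e z = a * (starRingEnd ℂ z) + b) := by
  set E := e.toRealAffineIsometryEquiv with hE
  have h1 : ∀ z, e z = E.linearIsometryEquiv z + e 0 := by
    intro z
    have := E.map_vadd 0 z
    simpa [hE] using this
  obtain ⟨a, ha⟩ := linear_isometry_complex E.linearIsometryEquiv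
  rcases ha with ha | ha
  · left
    refine ⟨a, e 0, Circle.norm_coe a, fun z => ?_⟩
    rw [h1 z, ha, rotation_apply]
  · right
    refine ⟨a, e 0, Circle.norm_coe a, fun z => ?_⟩
    rw [h1 z, ha]
    simp [rotation_apply]

/-- an isometric self-map of the plane is onto -/
theorem isom_surj {e : ℂ → ℂ} (he : Isometry e) : Function.Surjective e := by
  set A := he.affineIsometryOfStrictConvexSpace with hA
  have h1 : ∀ z, e z = A.linearIsometry z + e 0 := by
    intro z
    have := A.map_vadd 0 z
    simpa [hA] using this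
  have h2 : Function.Surjective A.linearIsometry.toLinearMap :=
    LinearMap.injective_iff_surjective.1 A.linearIsometry.injective
  intro w
  obtain ⟨z, hz⟩ := h2 (w - e 0)
  refine ⟨z, ?_⟩
  rw [h1]
  have : A.linearIsometry z = w - e 0 := hz
  rw [this]; ring

/-- isometric self-maps of the plane are isometric equivalences -/
theorem toEquiv {e : ℂ → ℂ} (he : Isometry e) : ∃ e' : ℂ ≃ᵢ ℂ, ∀ z, e' z = e z :=
  ⟨IsometryEquiv.mk (Equiv.ofBijective e ⟨he.injective, isom_surj he⟩) he, fun _ => rfl⟩

end Pool.Agent.W620.FL
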