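import Mathlib
import Pool.Agent.W620.FL.Basic

/-!
Coarse translations of a flat: if elements of the group move a flat back to itself up to bounded
error in a coarsely dense way then the group contains a free abelian subgroup of rank two.
-/

namespace Pool.Agent.W620.FL
open Set

section
variable {X : Type*} [MetricSpace X] {G : Type*} [Group G] [MulAction G X] [IsIsometricSMul G X]

/-- the element `h` moves the parametrised flat `f` to itself up to the plane isometry `e`, with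
error at most `r` -/
def Lam (f : ℂ → X) (r : ℝ) (h : G) (e : ℂ ≃ᵢ ℂ) : Prop := ∀ z, dist (h • f z) (f (e z)) ≤ r

/-- the element `h` acts on the parametrised flat `f` as the translation by `v`, with error at
most `r` -/
def Tr (f : ℂ → X) (r : ℝ) (h : G) (v : ℂ) : Prop := ∀ z, dist (h • f z) (f (z + v)) ≤ r

theorem Lam.mul {f : ℂ → X} {r s : ℝ} {h k : G} {e e' : ℂ ≃ᵢ ℂ} (h1 : Lam f r h e)
    (h2 : Lam f s k e') : Lam f (r + s) (h * k) (e * e') := by
  intro z
  rw [mul_smul, IsometryEquiv.mul_apply]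
  calc dist (h • k • f z) (f (e (e' z))) ≤
        dist (h • k • f z) (h • f (e' z)) + dist (h • f (e' z)) (f (e (e' z))) :=
        dist_triangle _ _ _
    _ = dist (k • f z) (f (e' z)) + dist (h • f (e' z)) (f (e (e' z))) := by rw [dist_smul]
    _ ≤ r + s := by linarith [h1 (e' z), h2 z]

theorem Lam.inv {f : ℂ → X} {r : ℝ} {h : G} {e : ℂ ≃ᵢ ℂ} (h1 : Lam f r h e) :
    Lam f r h⁻¹ e⁻¹ := by
  intro z
  have h2 := h1 (e⁻¹ z)
  rw [IsometryEquiv.apply_inv_self] at h2
  have h3 : dist (h⁻¹ • f z) (f (e⁻¹ z)) = dist (f z) (h • f (e⁻¹ z)) := by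
    rw [← dist_smul h (h⁻¹ • f z) (f (e⁻¹ z)), smul_inv_smul]
  rw [h3, dist_comm]; exact h2

theorem Lam.mono {f : ℂ → X} {r s : ℝ} {h : G} {e : ℂ ≃ᵢ ℂ} (h1 : Lam f r h e) (hrs : r ≤ s) :
    Lam f s h e := fun z => (h1 z).trans hrs

theorem Lam.nonneg {f : ℂ → X} {r : ℝ} {h : G} {e : ℂ ≃ᵢ ℂ} (h1 : Lam f r h e) : 0 ≤ r :=
  dist_nonneg.trans (h1 0)

theorem Tr.mul {f : ℂ → X} {r s : ℝ} {h k : G} {v w : ℂ} (h1 : Tr f r h v)
    (h2 : Tr f s k w) : Tr f (r + s) (h * k) (v + w) := by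
  intro z
  rw [mul_smul]
  have h3 : z + (v + w) = (z + w) + v := by ring
  rw [h3]
  calc dist (h • k • f z) (f (z + w + v)) ≤
        dist (h • k • f z) (h • f (z + w)) + dist (h • f (z + w)) (f (z + w + v)) :=
        dist_triangle _ _ _
    _ = dist (k • f z) (f (z + w)) + dist (h • f (z + w)) (f (z + w + v)) := by rw [dist_smul]
    _ ≤ r + s := by linarith [h1 (z + w), h2 z]

theorem Tr.inv {f : ℂ → X} {r : ℝ} {h : G} {v : ℂ} (h1 : Tr f r h v) :
    Tr f r h⁻¹ (-v) := by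
  intro z
  have h2 := h1 (z + -v)
  rw [neg_add_cancel_right] at h2
  have h3 : dist (h⁻¹ • f z) (f (z + -v)) = dist (f z) (h • f (z + -v)) := by
    rw [← dist_smul h (h⁻¹ • f z) (f (z + -v)), smul_inv_smul]
  rw [h3, dist_comm]; exact h2

theorem Tr.pow {f : ℂ → X} {r : ℝ} {h : G} {v : ℂ} (h1 : Tr f r h v) (n : ℕ) :
    Tr f (n * r) (h ^ n) (n * v) := by
  induction n with
  | zero => intro z; simp
  | succ n ih =>
    have := ih.mul h1
    rw [← pow_succ] at this
    have e1 : (n : ℝ) * r + r = ((n + 1 : ℕ) : ℝ) * r := by push_cast; ring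
    have e2 : (n : ℂ) * v + v = ((n + 1 : ℕ) : ℂ) * v := by push_cast; ring
    rw [e1, e2] at this
    exact this

theorem Tr.zpow {f : ℂ → X} {r : ℝ} {h : G} {v : ℂ} (h1 : Tr f r h v) (n : ℤ) :
    Tr f (|(n : ℝ)| * r) (h ^ n) (n * v) := by
  rcases Int.eq_nat_or_neg n with ⟨m, rfl | rfl⟩
  · have := h1.pow m
    simpa using this
  · have := (h1.pow m).inv
    rw [zpow_neg, zpow_natCast]
    have e1 : |(((-(m : ℤ)) : ℤ) : ℝ)| * r = m * r := by simp
    have e2 : (((-(m : ℤ)) : ℤ) : ℂ) * v = -((m : ℂ) * v) := by push_cast; ring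
    rw [e1, e2]
    exact this

/-- orientation preserving elements are coarsely dense -/
theorem dense_orient {f : ℂ → X} {n C : ℝ}
    (hd : ∀ z0 : ℂ, ∃ (h : G) (e : ℂ ≃ᵢ ℂ), Lam f n h e ∧ ‖e 0 - z0‖ ≤ C) :
    ∃ n' C' : ℝ, ∀ z0 : ℂ, ∃ (h : G) (e : ℂ ≃ᵢ ℂ) (a b : ℂ), Lam f n' h e ∧ ‖a‖ = 1 ∧
      (∀ z, e z = a * z + b) ∧ ‖b - z0‖ ≤ C' := by
  by_cases hr : ∃ (h0 : G) (e0 : ℂ ≃ᵢ ℂ) (a0 b0 : ℂ), Lam f n h0 e0 ∧ ‖a0‖ = 1 ∧
      ∀ z, e0 z = a0 * (starRingEnd ℂ z) + b0
  · obtain ⟨h0, e0, a0, b0, hL0, ha0, he0⟩ := hr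
    refine ⟨n + n, C + ‖b0‖, fun z0 => ?_⟩
    obtain ⟨h, e, hL, hb⟩ := hd z0
    have hn : 0 ≤ n := hL.nonneg
    rcases isom_form e with ⟨a, b, ha, he⟩ | ⟨a, b, ha, he⟩
    · refine ⟨h, e, a, b, hL.mono (by linarith), ha, he, ?_⟩
      rw [he] at hb
      simp only [mul_zero, zero_add] at hb
      linarith [norm_nonneg b0]
    · refine ⟨h * h0, e * e0, a * starRingEnd ℂ a0, a * starRingEnd ℂ b0 + b, hL.mul hL0,
        by simp [ha, ha0], fun z => ?_, ?_⟩
      · rw [IsometryEquiv.mul_apply, he, he0]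
        simp only [map_add, map_mul, Complex.conj_conj]; ring
      · rw [he] at hb
        simp only [map_zero, mul_zero, zero_add] at hb
        have : a * starRingEnd ℂ b0 + b - z0 = (b - z0) + a * starRingEnd ℂ b0 := by ring
        rw [this]
        refine (norm_add_le _ _).trans ?_
        rw [norm_mul, ha, Complex.norm_conj]
        linarith
  · refine ⟨n, C, fun z0 => ?_⟩
    obtain ⟨h, e, hL, hb⟩ := hd z0
    rcases isom_form e with ⟨a, b, ha, he⟩ | ⟨a, b, ha, he⟩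
    · refine ⟨h, e, a, b, hL, ha, he, ?_⟩
      rw [he] at hb
      simpa using hb
    · exact absurd ⟨h, e, a, b, hL, ha, he⟩ hr

/-- translation like elements are coarsely dense -/
theorem dense_trans {f : ℂ → X} {n C : ℝ}
    (hd : ∀ z0 : ℂ, ∃ (h : G) (e : ℂ ≃ᵢ ℂ), Lam f n h e ∧ ‖e 0 - z0‖ ≤ C) :
    ∃ r C' : ℝ, ∀ z0 : ℂ, ∃ (h : G) (v : ℂ), Tr f r h v ∧ ‖v - z0‖ ≤ C' := by
  obtain ⟨n', C', hd'⟩ := dense_orient hd
  by_cases hr : ∃ (h : G) (e : ℂ ≃ᵢ ℂ) (a b : ℂ), Lam f n' h e ∧ ‖a‖ = 1 ∧ a ≠ 1 ∧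
      ∀ z, e z = a * z + b
  · obtain ⟨h, e, a, b, hL, ha, ha1, he⟩ := hr
    refine ⟨n' + n' + n' + n', ‖a - 1‖ * C' + 2 * ‖b‖, fun z0 => ?_⟩
    obtain ⟨k, e', c, d, hL', hc, he', hcd⟩ := hd' (z0 / (a - 1))
    have ha0 : a ≠ 0 := by rintro rfl; simp at ha
    have hc0 : c ≠ 0 := by rintro rfl; simp at hc
    have hL4 := ((hL.mul hL').mul hL.inv).mul hL'.inv
    have h1 : a - 1 ≠ 0 := sub_ne_zero.2 ha1
    refine ⟨h * k * h⁻¹ * k⁻¹, (a - 1) * d - (c - 1) * b, ?_, ?_⟩
    · intro z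
      have h2 := hL4 z
      have h3 : (e * e' * e⁻¹ * e'⁻¹) z = z + ((a - 1) * d - (c - 1) * b) := by
        have e1 : e'⁻¹ z = c⁻¹ * (z - d) := by
          have : e' (e'⁻¹ z) = z := IsometryEquiv.apply_inv_self _ _
          rw [he'] at this
          field_simp
          linear_combination this
        have e2 : ∀ y, e⁻¹ y = a⁻¹ * (y - b) := by
          intro y
          have : e (e⁻¹ y) = y := IsometryEquiv.apply_inv_self _ _
          rw [he] at this
          field_simp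
          linear_combination this
        rw [IsometryEquiv.mul_apply, IsometryEquiv.mul_apply, IsometryEquiv.mul_apply, e1, e2,
          he', he]
        field_simp
        ring
      rw [h3] at h2
      exact h2
    · have h4 : (a - 1) * d - (c - 1) * b - z0 =
          (a - 1) * (d - z0 / (a - 1)) - (c - 1) * b := by field_simp; ring
      rw [h4]
      refine (norm_sub_le _ _).trans ?_
      rw [norm_mul, norm_mul]
      have h5 : ‖c - 1‖ ≤ 2 := by
        refine (norm_sub_le _ _).trans ?_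
        rw [hc]; norm_num
      have h6 : ‖a - 1‖ * ‖d - z0 / (a - 1)‖ ≤ ‖a - 1‖ * C' :=
        mul_le_mul_of_nonneg_left hcd (norm_nonneg _)
      have h7 : ‖c - 1‖ * ‖b‖ ≤ 2 * ‖b‖ := mul_le_mul_of_nonneg_right h5 (norm_nonneg _)
      linarith
  · refine ⟨n', C', fun z0 => ?_⟩
    obtain ⟨h, e, a, b, hL, ha, he, hb⟩ := hd' z0
    have ha1 : a = 1 := by
      by_contra hne
      exact hr ⟨h, e, a, b, hL, ha, hne, he⟩
    subst ha1
    refine ⟨h, b, fun z => ?_, hb⟩
    have := hL z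
    rw [he, one_mul] at this
    exact this

/-- a coarsely dense set of translation like elements forces a free abelian subgroup of rank
two -/
theorem coarse_Z2 {f : ℂ → X} (hf : Isometry f) {r C : ℝ}
    (hfin : ∀ ρ : ℝ, {g : G | dist (g • f 0) (f 0) ≤ ρ}.Finite)
    (hd : ∀ z0 : ℂ, ∃ (h : G) (v : ℂ), Tr f r h v ∧ ‖v - z0‖ ≤ C) :
    ∃ φ : Multiplicative (ℤ × ℤ) →* G, Function.Injective φ := by
  have hr0 : 0 ≤ r := by
    obtain ⟨h, v, h1, -⟩ := hd 0
    exact dist_nonneg.trans (h1 0)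
  have hC0 : 0 ≤ C := by
    obtain ⟨h, v, -, h1⟩ := hd 0
    exact (norm_nonneg _).trans h1
  set P : ℝ := r + C + 1 with hP
  obtain ⟨h, v, hh, hv⟩ := hd ((6 * P : ℝ) : ℂ)
  choose k w hk hw using fun i : ℕ => hd ((((i : ℝ) * (7 * P) : ℝ) : ℂ) * Complex.I)
  -- commutators
  have hmem : ∀ i, k i * h * (k i)⁻¹ * h⁻¹ ∈ {g : G | dist (g • f 0) (f 0) ≤ r + r + r + r} := by
    intro i
    have h1 := ((((hk i).mul hh).mul (hk i).inv).mul hh.inv) 0
    have h2 : (0 : ℂ) + (w i + v + -w i + -v) = 0 := by ring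
    rw [h2] at h1
    exact h1
  have hnin : ¬ Function.Injective (fun i : ℕ => k i * h * (k i)⁻¹ * h⁻¹) := fun hinj =>
    (Set.infinite_of_injective_forall_mem hinj hmem) (hfin _)
  have hpig : ∃ i j : ℕ, i < j ∧ k i * h * (k i)⁻¹ * h⁻¹ = k j * h * (k j)⁻¹ * h⁻¹ := by
    simp only [Function.Injective, not_forall] at hnin
    obtain ⟨i, j, hij, hne⟩ := hnin
    rcases Nat.lt_or_gt_of_ne hne with h | h
    · exact ⟨i, j, h, hij⟩
    · exact ⟨j, i, h, hij.symm⟩
  obtain ⟨i, j, hij, hkk⟩ := hpig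
  set u : G := (k i)⁻¹ * k j with hu
  set x : ℂ := -w i + w j with hx
  have hux : Tr f (r + r) u x := (hk i).inv.mul (hk j)
  have hcomm : Commute h u := by
    have h1 : k i * h * (k i)⁻¹ = k j * h * (k j)⁻¹ := mul_right_cancel hkk
    show h * ((k i)⁻¹ * k j) = (k i)⁻¹ * k j * h
    calc h * ((k i)⁻¹ * k j) = (k i)⁻¹ * (k i * h * (k i)⁻¹) * k j := by group
      _ = (k i)⁻¹ * (k j * h * (k j)⁻¹) * k j := by rw [h1]
      _ = _ := by group
  -- estimates
  have hvre : 5 * P ≤ v.re := by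
    have h1 := (Complex.abs_re_le_norm _).trans hv
    rw [Complex.sub_re, Complex.ofReal_re] at h1
    have := (abs_le.1 h1).1
    linarith
  have hvim : |v.im| ≤ C := by
    have h1 := (Complex.abs_im_le_norm _).trans hv
    rwa [Complex.sub_im, Complex.ofReal_im, sub_zero] at h1
  have hwre : ∀ i, |(w i).re| ≤ C := by
    intro i
    have h1 := (Complex.abs_re_le_norm _).trans (hw i)
    rw [Complex.sub_re, Complex.re_ofReal_mul, Complex.I_re, mul_zero, sub_zero] at h1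
    exact h1
  have hwim : ∀ i : ℕ, |(w i).im - (i : ℝ) * (7 * P)| ≤ C := by
    intro i
    have h1 := (Complex.abs_im_le_norm _).trans (hw i)
    rw [Complex.sub_im, Complex.im_ofReal_mul, Complex.I_im, mul_one] at h1
    exact h1
  have hxre : |x.re| ≤ 2 * C := by
    rw [hx, Complex.add_re, Complex.neg_re]
    have h1 := abs_le.1 (hwre i)
    have h2 := abs_le.1 (hwre j)
    rw [abs_le]; constructor <;> linarith [h1.1, h1.2, h2.1, h2.2]
  have hxim : 5 * P ≤ x.im := by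
    rw [hx, Complex.add_im, Complex.neg_im]
    have h1 := (abs_le.1 (hwim i)).2
    have h2 := (abs_le.1 (hwim j)).1
    have h3 : (i : ℝ) + 1 ≤ j := by exact_mod_cast hij
    have h4 : (7 * P) ≤ (j - i : ℝ) * (7 * P) := by
      have : 0 ≤ 7 * P := by positivity
      nlinarith
    nlinarith
  refine ⟨{ toFun := fun p => h ^ (p.toAdd.1) * u ^ (p.toAdd.2)
            map_one' := by simp
            map_mul' := ?_ }, ?_⟩
  · intro p q
    simp only [toAdd_mul, Prod.fst_add, Prod.snd_add, zpow_add]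
    have h1 : Commute (h ^ (q.toAdd.1)) (u ^ (p.toAdd.2)) := hcomm.zpow_zpow _ _
    calc h ^ p.toAdd.1 * h ^ q.toAdd.1 * (u ^ p.toAdd.2 * u ^ q.toAdd.2)
        = h ^ p.toAdd.1 * (h ^ q.toAdd.1 * u ^ p.toAdd.2) * u ^ q.toAdd.2 := by group
      _ = h ^ p.toAdd.1 * (u ^ p.toAdd.2 * h ^ q.toAdd.1) * u ^ q.toAdd.2 := by
          rw [h1.eq]
      _ = _ := by group
  · rw [injective_iff_map_eq_one]
    intro p hp1
    simp only [MonoidHom.coe_mk, OneHom.coe_mk] at hp1
    have h1 := ((hh.zpow p.toAdd.1).mul (hux.zpow p.toAdd.2)) 0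
    rw [hp1, one_smul, hf.dist_eq, zero_add, dist_comm, dist_zero_right] at h1
    set a : ℝ := ((p.toAdd.1 : ℤ) : ℝ) with ha
    set b : ℝ := ((p.toAdd.2 : ℤ) : ℝ) with hb
    have ha' : ((p.toAdd.1 : ℤ) : ℂ) = (a : ℂ) := by rw [ha]; push_cast; rfl
    have hb' : ((p.toAdd.2 : ℤ) : ℂ) = (b : ℂ) := by rw [hb]; push_cast; rfl
    rw [ha', hb'] at h1
    have hre := (Complex.abs_re_le_norm _).trans h1
    have him := (Complex.abs_im_le_norm _).trans h1
    rw [Complex.add_re, Complex.re_ofReal_mul, Complex.re_ofReal_mul] at hre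
    rw [Complex.add_im, Complex.im_ofReal_mul, Complex.im_ofReal_mul] at him
    have hA : 5 * P * |a| ≤ (|a| * r + |b| * (r + r)) + |b| * (2 * C) := by
      have h2 : |a * v.re| ≤ |a * v.re + b * x.re| + |b * x.re| := by
        have := abs_sub (a * v.re + b * x.re) (b * x.re)
        rwa [add_sub_cancel_right] at this
      rw [abs_mul, abs_mul b] at h2
      have h3 : |a| * (5 * P) ≤ |a| * |v.re| :=
        mul_le_mul_of_nonneg_left (hvre.trans (le_abs_self _)) (abs_nonneg _)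
      have h4 : |b| * |x.re| ≤ |b| * (2 * C) := mul_le_mul_of_nonneg_left hxre (abs_nonneg _)
      linarith
    have hB : 5 * P * |b| ≤ (|a| * r + |b| * (r + r)) + |a| * C := by
      have h2 : |b * x.im| ≤ |a * v.im + b * x.im| + |a * v.im| := by
        have := abs_sub (a * v.im + b * x.im) (a * v.im)
        rwa [add_sub_cancel_left] at this
      rw [abs_mul, abs_mul a] at h2
      have h3 : |b| * (5 * P) ≤ |b| * |x.im| :=
        mul_le_mul_of_nonneg_left (hxim.trans (le_abs_self _)) (abs_nonneg _)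
      have h4 : |a| * |v.im| ≤ |a| * C := mul_le_mul_of_nonneg_left hvim (abs_nonneg _)
      linarith
    have hsum : |a| + |b| ≤ 0 := by
      have h5 : 5 * P * (|a| + |b|) ≤ 4 * P * (|a| + |b|) := by
        have := abs_nonneg a
        have := abs_nonneg b
        rw [hP]
        rw [hP] at hA hB
        nlinarith [mul_nonneg (abs_nonneg a) hr0, mul_nonneg (abs_nonneg b) hr0,
          mul_nonneg (abs_nonneg a) hC0, mul_nonneg (abs_nonneg b) hC0]
      have hPpos : 0 < P := by positivity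
      nlinarith
    have h6 : a = 0 := abs_eq_zero.1 (le_antisymm (by linarith [abs_nonneg b]) (abs_nonneg a))
    have h7 : b = 0 := abs_eq_zero.1 (le_antisymm (by linarith [abs_nonneg a]) (abs_nonneg b))
    have h6' : p.toAdd.1 = 0 := by rw [ha] at h6; exact_mod_cast h6
    have h7' : p.toAdd.2 = 0 := by rw [hb] at h7; exact_mod_cast h7
    apply Multiplicative.toAdd.injective
    exact Prod.ext h6' h7'

end

end Pool.Agent.W620.FL
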