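import Mathlib
import Pool.Agent.W620.FL.Closing
import Pool.Agent.W620.FL.Coarse

/-!
Closing: from an open piece of uniformly parallel flats in a minimal family to a free abelian
subgroup of rank two.
-/

namespace Pool.Agent.W620.FL
open Set

section
variable {X : Type*} [MetricSpace X] {G : Type*} [Group G] [MulAction G X]

/-- If a minimal closed invariant family of flats has a nonempty open piece consisting of flats
which are uniformly parallel up to finitely many group elements, then the group contains a free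
abelian subgroup of rank two. -/
theorem Z2_of_open [ProperSpace X] [IsIsometricSMul G X] [ProperlyDiscontinuousSMul G X]
    (x0 : X) {K : Set X} (hK : IsCompact K)
    (hGK : ∀ x : X, ∃ g : G, g • x ∈ K) {M : Set (ℂ → X)}
    (hMmin : Minimal (fun T : Set (ℂ → X) => Inv G T ∧ T.Nonempty) M)
    {f : ℂ → X} (hfM : f ∈ M) {O : Set (ℂ → X)} (hO : IsOpen O) (hfO : f ∈ O) {n : ℝ}
    {L : Set G} (hLf : L.Finite)
    (hn : ∀ h ∈ O ∩ M, ∃ b ∈ L, ∃ e : ℂ ≃ᵢ ℂ, ∀ z, dist (b • h z) (f (e z)) ≤ n) :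
    ∃ φ : Multiplicative (ℤ × ℤ) →* G, Function.Injective φ := by
  have hM : Inv G M := hMmin.prop.1
  have hf : Isometry f := hM.isom f hfM
  have hcontg : ∀ (g : G) (e : ℂ ≃ᵢ ℂ),
      Continuous (fun (h : ℂ → X) (z : ℂ) => g • h (e z)) := fun g e =>
    continuous_pi fun z => (isometry_smul X g).continuous.comp (continuous_apply (e z))
  -- minimality
  have hall : ∀ h ∈ M, ∃ (g : G) (e : ℂ ≃ᵢ ℂ), (fun z => g • h (e z)) ∈ O := by
    by_contra hcon
    set Z : Set (ℂ → X) := {h | h ∈ M ∧ ∀ (g : G) (e : ℂ ≃ᵢ ℂ), (fun z => g • h (e z)) ∉ O}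
      with hZ
    have hZinv : Inv G Z := by
      refine ⟨?_, fun h hh => hM.isom h hh.1, ?_, ?_⟩
      · refine hM.closed.inter ?_
        have : {h : ℂ → X | ∀ (g : G) (e : ℂ ≃ᵢ ℂ), (fun z => g • h (e z)) ∉ O} =
            ⋂ (g : G), ⋂ (e : ℂ ≃ᵢ ℂ), {h : ℂ → X | (fun z => g • h (e z)) ∈ Oᶜ} := by
          ext h; simp
        show IsClosed {h : ℂ → X | ∀ (g : G) (e : ℂ ≃ᵢ ℂ), (fun z => g • h (e z)) ∉ O}
        rw [this]
        exact isClosed_iInter fun g => isClosed_iInter fun e =>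
          hO.isClosed_compl.preimage (hcontg g e)
      · intro h hh g
        refine ⟨hM.smul h hh.1 g, fun g' e => ?_⟩
        have := hh.2 (g' * g) e
        simpa only [mul_smul] using this
      · intro h hh e
        refine ⟨hM.comp h hh.1 e, fun g' e' => ?_⟩
        have := hh.2 g' (e * e')
        simpa only [IsometryEquiv.mul_apply] using this
    have hZne : Z.Nonempty := by
      simp only [not_forall] at hcon
      obtain ⟨h, hh, hcon⟩ := hcon
      exact ⟨h, hh, fun g e hge => hcon ⟨g, e, hge⟩⟩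
    have hMZ : M ⊆ Z := hMmin.le_of_le ⟨hZinv, hZne⟩ (fun h hh => hh.1)
    have := (hMZ hfM).2 1 1
    apply this
    simpa using hfO
  -- compactness
  have hcpt := compact_PK x0 hK hM
  obtain ⟨T, hT⟩ := hcpt.elim_finite_subcover
    (fun q : G × (ℂ ≃ᵢ ℂ) => {h : ℂ → X | (fun z => q.1 • h (q.2 z)) ∈ O})
    (fun q => hO.preimage (hcontg q.1 q.2))
    (by
      rintro h ⟨hh, -⟩
      obtain ⟨g, e, hge⟩ := hall h hh
      exact mem_iUnion.2 ⟨(g, e), hge⟩)
  obtain ⟨R, hR⟩ := hK.isBounded.subset_closedBall x0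
  obtain ⟨B, hB⟩ : ∃ B : ℝ, ∀ b ∈ L, ∀ q ∈ T, dist (b • q.1 • x0) (f 0) ≤ B := by
    obtain ⟨B, hB⟩ := ((hLf.toFinset ×ˢ T).image
      (fun q => dist (q.1 • q.2.1 • x0) (f 0))).exists_le
    refine ⟨B, fun b hb q hq => hB _ (Finset.mem_image.2 ⟨(b, q), ?_, rfl⟩)⟩
    exact Finset.mem_product.2 ⟨hLf.mem_toFinset.2 hb, hq⟩
  have hdense : ∀ z0 : ℂ, ∃ (h : G) (e : ℂ ≃ᵢ ℂ), Lam f n h e ∧ ‖e 0 - z0‖ ≤ n + (R + B) := by
    intro z0
    obtain ⟨g0, hg0⟩ := hGK (f z0)
    obtain ⟨τ, hτ⟩ := toEquiv (isometry_add_right z0 : Isometry (fun z : ℂ => z + z0))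
    have h1 : (fun z => g0 • f (τ z)) ∈ M := hM.comp _ (hM.smul f hfM g0) τ
    have h2 : (fun z => g0 • f (τ z)) ∈ {h : ℂ → X | h ∈ M ∧ h 0 ∈ K} := by
      refine ⟨h1, ?_⟩
      simp only [hτ, zero_add]
      exact hg0
    obtain ⟨q, hq, hqO⟩ := mem_iUnion₂.1 (hT h2)
    obtain ⟨b, hb, e1, he1⟩ := hn (fun z => q.1 • g0 • f (τ (q.2 z)))
      ⟨hqO, hM.comp _ (hM.smul _ h1 q.1) q.2⟩
    have hL : Lam f n (b * (q.1 * g0)) (e1 * (τ * q.2)⁻¹) := by
      intro z
      have h3 := he1 ((τ * q.2)⁻¹ z)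
      have h4 : τ (q.2 ((τ * q.2)⁻¹ z)) = z := by
        rw [← IsometryEquiv.mul_apply, IsometryEquiv.apply_inv_self]
      simp only [h4] at h3
      rw [mul_smul, mul_smul, IsometryEquiv.mul_apply]
      exact h3
    set E : ℂ ≃ᵢ ℂ := e1 * (τ * q.2)⁻¹ with hE
    refine ⟨(b * (q.1 * g0))⁻¹, E⁻¹, hL.inv, ?_⟩
    have h5 : ‖E⁻¹ 0 - z0‖ = dist (f (E z0)) (f 0) := by
      rw [← dist_eq_norm, hf.dist_eq, ← E.isometry.dist_eq, IsometryEquiv.apply_inv_self,
        dist_comm]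
    rw [h5]
    have h6 := hL z0
    rw [mul_smul, mul_smul, dist_comm] at h6
    have h7 : dist (b • q.1 • g0 • f z0) (f 0) ≤ R + B := by
      have h8 := hR hg0
      rw [Metric.mem_closedBall, ← dist_smul q.1, ← dist_smul b] at h8
      exact (dist_triangle _ _ _).trans (add_le_add h8 (hB b hb q hq))
    exact (dist_triangle _ _ _).trans (add_le_add h6 h7)
  obtain ⟨r, C, hrC⟩ := dense_trans hdense
  refine coarse_Z2 hf ?_ hrC
  intro ρ
  refine (ProperlyDiscontinuousSMul.finite_disjoint_inter_image (Γ := G)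
    (isCompact_singleton (x := f 0)) (isCompact_closedBall (f 0) ρ)).subset ?_
  intro g hg
  exact ⟨g • f 0, ⟨f 0, rfl, rfl⟩, hg⟩

end

end Pool.Agent.W620.FL
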