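import Mathlib
import Pool.Agent.W620.FL.Open
import Pool.Agent.W620.FL.Mycielski

/-!
The dichotomy: a free abelian subgroup of rank two, or a Cantor family of pairwise non-parallel
flats in every closed invariant family of flats.
-/

namespace Pool.Agent.W620.FL
open Set Filter Topology

section
variable {X : Type*} [MetricSpace X] {G : Type*} [Group G] [MulAction G X]

theorem rel_closed [IsIsometricSMul G X] {W : Set (ℂ → X)} (hW : IsCompact W)
    (hWi : ∀ w ∈ W, Isometry w) {x0 : X}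
    {R : ℝ} (hR : ∀ w ∈ W, w 0 ∈ Metric.closedBall x0 R) (g : G) (n : ℝ) :
    IsClosed {q : W × W | ∃ e : ℂ ≃ᵢ ℂ,
      ∀ z, dist ((q.1 : ℂ → X) z) (g • (q.2 : ℂ → X) (e z)) ≤ n} := by
  have : CompactSpace W := isCompact_iff_compactSpace.1 hW
  set Q : Set ((W × W) × (ℂ → ℂ)) :=
    {q | Isometry q.2 ∧ ∀ z, dist ((q.1.1 : ℂ → X) z) (g • (q.1.2 : ℂ → X) (q.2 z)) ≤ n} with hQ
  have hcont1 : ∀ z, Continuous (fun q : (W × W) × (ℂ → ℂ) => (q.1.1 : ℂ → X) z) := fun z =>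
    (continuous_apply z).comp (continuous_subtype_val.comp (continuous_fst.comp continuous_fst))
  have hcont2 : ∀ z, Continuous (fun q : (W × W) × (ℂ → ℂ) => (q.1.2 : ℂ → X) z) := fun z =>
    (continuous_apply z).comp (continuous_subtype_val.comp (continuous_snd.comp continuous_fst))
  have hcont3 : ∀ z, Continuous (fun q : (W × W) × (ℂ → ℂ) => q.2 z) := fun z =>
    (continuous_apply z).comp continuous_snd
  have hcont : ∀ z, Continuous (fun q : (W × W) × (ℂ → ℂ) => (q.1.2 : ℂ → X) (q.2 z)) := by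
    intro z
    rw [continuous_iff_continuousAt]
    intro q0
    rw [ContinuousAt, tendsto_iff_dist_tendsto_zero]
    have h1 : Tendsto (fun q : (W × W) × (ℂ → ℂ) => dist (q.2 z) (q0.2 z) +
        dist ((q.1.2 : ℂ → X) (q0.2 z)) ((q0.1.2 : ℂ → X) (q0.2 z))) (𝓝 q0) (𝓝 0) := by
      have h2 : Continuous (fun q : (W × W) × (ℂ → ℂ) => dist (q.2 z) (q0.2 z) +
          dist ((q.1.2 : ℂ → X) (q0.2 z)) ((q0.1.2 : ℂ → X) (q0.2 z))) :=
        ((hcont3 z).dist continuous_const).add ((hcont2 (q0.2 z)).dist continuous_const)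
      have h3 := h2.tendsto q0
      simpa using h3
    refine squeeze_zero (fun _ => dist_nonneg) (fun q => ?_) h1
    have h4 := dist_triangle ((q.1.2 : ℂ → X) (q.2 z)) ((q.1.2 : ℂ → X) (q0.2 z))
      ((q0.1.2 : ℂ → X) (q0.2 z))
    rw [(hWi _ q.1.2.2).dist_eq] at h4
    exact h4
  have hQcl : IsClosed Q := by
    refine (isClosed_isom.preimage continuous_snd).inter ?_
    have h1 : {q : (W × W) × (ℂ → ℂ) |
        ∀ z, dist ((q.1.1 : ℂ → X) z) (g • (q.1.2 : ℂ → X) (q.2 z)) ≤ n} =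
        ⋂ z, {q : (W × W) × (ℂ → ℂ) |
          dist ((q.1.1 : ℂ → X) z) (g • (q.1.2 : ℂ → X) (q.2 z)) ≤ n} := by
      ext q; simp
    show IsClosed {q : (W × W) × (ℂ → ℂ) |
        ∀ z, dist ((q.1.1 : ℂ → X) z) (g • (q.1.2 : ℂ → X) (q.2 z)) ≤ n}
    rw [h1]
    exact isClosed_iInter fun z => isClosed_le
      ((hcont1 z).dist ((isometry_smul X g).continuous.comp (hcont z))) continuous_const
  have hQc : IsCompact Q := by
    refine ((isCompact_univ (X := W × W)).prod (isCompact_univ_pi fun p : ℂ =>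
      isCompact_closedBall (0 : ℂ) ((n + R + dist x0 (g • x0) + R) + dist p 0))).of_isClosed_subset
      hQcl ?_
    rintro ⟨⟨w, w'⟩, e⟩ ⟨he, hd⟩
    refine ⟨mem_univ _, fun p _ => ?_⟩
    simp only at he hd ⊢
    rw [Metric.mem_closedBall]
    have h1 := hR w w.2
    have h1' := hR w' w'.2
    rw [Metric.mem_closedBall] at h1 h1'
    have h2 : dist (e 0) 0 = dist (g • (w' : ℂ → X) (e 0)) (g • (w' : ℂ → X) 0) := by
      rw [dist_smul]; exact ((hWi w' w'.2).dist_eq _ _).symm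
    have h3 := hd 0
    have h4 : dist (g • (w' : ℂ → X) (e 0)) (g • (w' : ℂ → X) 0) ≤
        dist (g • (w' : ℂ → X) (e 0)) ((w : ℂ → X) 0) + dist ((w : ℂ → X) 0) x0 +
        dist x0 (g • (w' : ℂ → X) 0) := dist_triangle4 _ _ _ _
    have h6 : dist x0 (g • (w' : ℂ → X) 0) ≤ dist x0 (g • x0) + R := by
      refine (dist_triangle x0 (g • x0) _).trans (add_le_add le_rfl ?_)
      rw [dist_smul, dist_comm]; exact h1'
    rw [dist_comm (g • (w' : ℂ → X) (e 0)) ((w : ℂ → X) 0)] at h4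
    have h5 := dist_triangle (e p) (e 0) 0
    rw [he.dist_eq] at h5
    linarith
  have h1 := (hQc.image continuous_fst).isClosed
  convert h1 using 1
  ext q
  constructor
  · rintro ⟨e, he⟩
    exact ⟨(q, e), ⟨e.isometry, he⟩, rfl⟩
  · rintro ⟨⟨q', e⟩, ⟨he, hd⟩, rfl⟩
    obtain ⟨e', he'⟩ := toEquiv he
    refine ⟨e', fun z => ?_⟩
    rw [he']; exact hd z

theorem dichotomy_complex [ProperSpace X] [IsIsometricSMul G X] [ProperlyDiscontinuousSMul G X]
    (x0 : X) {K : Set X} (hK : IsCompact K)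
    (hGK : ∀ x : X, ∃ g : G, g • x ∈ K) {S : Set (ℂ → X)} (hS : Inv G S) (hne : S.Nonempty) :
    (∃ φ : Multiplicative (ℤ × ℤ) →* G, Function.Injective φ) ∨
    ∃ (Φ : (ℕ → Bool) → (ℂ → X)) (R : ℝ), (∀ x, Φ x ∈ S) ∧ (∀ x, dist (Φ x 0) x0 ≤ R) ∧
      ∀ x y, x ≠ y → ∀ g : G,
        ¬ ∃ (e : ℂ ≃ᵢ ℂ) (n : ℝ), ∀ z, dist (Φ x z) (g • Φ y (e z)) ≤ n := by
  obtain ⟨M, hMS, hMmin⟩ := exists_minimal x0 hK hGK hS hne
  have hM : Inv G M := hMmin.prop.1
  have hMne : M.Nonempty := hMmin.prop.2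
  by_cases hZ : ∃ φ : Multiplicative (ℤ × ℤ) →* G, Function.Injective φ
  · exact Or.inl hZ
  right
  obtain ⟨R, hR⟩ := hK.isBounded.subset_closedBall x0
  set W : Set (ℂ → X) := {h | h ∈ M ∧ h 0 ∈ Metric.closedBall x0 (R + 1)} with hW
  have hWc : IsCompact W := compact_PK x0 (isCompact_closedBall _ _) hM
  have : CompactSpace W := isCompact_iff_compactSpace.1 hWc
  have hop : IsOpen {w : W | (w : ℂ → X) 0 ∈ Metric.ball x0 (R + 1)} :=
    Metric.isOpen_ball.preimage ((continuous_apply (0 : ℂ)).comp continuous_subtype_val)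
  have hopne : {w : W | (w : ℂ → X) 0 ∈ Metric.ball x0 (R + 1)}.Nonempty := by
    obtain ⟨h, hh⟩ := hMne
    obtain ⟨g, hg⟩ := hGK (h 0)
    have h1 := hR hg
    have h2 : g • h 0 ∈ Metric.ball x0 (R + 1) := by
      rw [Metric.mem_ball]; rw [Metric.mem_closedBall] at h1; linarith
    exact ⟨⟨fun p => g • h p, hM.smul h hh g, Metric.ball_subset_closedBall h2⟩, h2⟩
  have hfin : ∀ ρ : ℝ, {g : G | dist (g • x0) x0 ≤ ρ}.Finite := by
    intro ρ
    refine (ProperlyDiscontinuousSMul.finite_disjoint_inter_image (Γ := G)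
      (isCompact_singleton (x := x0)) (isCompact_closedBall x0 ρ)).subset ?_
    intro g hg
    exact ⟨g • x0, ⟨x0, rfl, rfl⟩, hg⟩
  obtain ⟨Φ, hΦ⟩ := mycielski
    (fun n : ℕ => {q : W × W | ∃ g : G, dist (g • x0) x0 ≤ n ∧ ∃ e : ℂ ≃ᵢ ℂ,
      ∀ z, dist ((q.1 : ℂ → X) z) (g • (q.2 : ℂ → X) (e z)) ≤ n})
    (fun n => by
      have h1 : {q : W × W | ∃ g : G, dist (g • x0) x0 ≤ n ∧ ∃ e : ℂ ≃ᵢ ℂ,
          ∀ z, dist ((q.1 : ℂ → X) z) (g • (q.2 : ℂ → X) (e z)) ≤ n} =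
          ⋃ g ∈ {g : G | dist (g • x0) x0 ≤ (n : ℝ)}, {q : W × W | ∃ e : ℂ ≃ᵢ ℂ,
          ∀ z, dist ((q.1 : ℂ → X) z) (g • (q.2 : ℂ → X) (e z)) ≤ n} := by
        ext q; simp
      rw [h1]
      exact (hfin n).isClosed_biUnion fun g _ =>
        rel_closed hWc (fun w hw => hM.isom w hw.1) (fun w hw => hw.2) g n) hop hopne
    (by
      intro n U V hU hV hUn hVn hU0 hV0
      by_contra hcon
      simp only [not_exists, not_and, not_not] at hcon
      obtain ⟨u0, hu0⟩ := hUn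
      obtain ⟨v0, hv0⟩ := hVn
      rw [isOpen_induced_iff] at hU
      obtain ⟨U', hU'o, hU'⟩ := hU
      have hmemU : ∀ w : W, (w : ℂ → X) ∈ U' → w ∈ U := by
        intro w hw
        rw [← hU']; exact hw
      have hu0' : (u0 : ℂ → X) ∈ U' := by
        have : u0 ∈ Subtype.val ⁻¹' U' := by rw [hU']; exact hu0
        exact this
      obtain ⟨g0, hg0, e0, he0⟩ := hcon u0 hu0 v0 hv0
      apply hZ
      refine Z2_of_open x0 hK hGK hMmin (f := u0) u0.2.1
        (O := U' ∩ {h | h 0 ∈ Metric.ball x0 (R + 1)})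
        (hU'o.inter (Metric.isOpen_ball.preimage (continuous_apply (0 : ℂ))))
        ⟨hu0', hU0 hu0⟩ (n := n + n)
        (L := (fun g : G => g0 * g⁻¹) '' {g : G | dist (g • x0) x0 ≤ (n : ℝ)})
        ((hfin n).image _) ?_
      rintro h ⟨⟨hhU, hhb⟩, hhM⟩
      obtain ⟨g1, hg1, e1, he1⟩ :=
        hcon ⟨h, hhM, Metric.ball_subset_closedBall hhb⟩ (hmemU _ hhU) v0 hv0
      refine ⟨g0 * g1⁻¹, ⟨g1, hg1, rfl⟩, e0⁻¹ * e1, fun z => ?_⟩
      have h2 := he1 z
      have h3 := he0 ((e0⁻¹ * e1) z)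
      rw [IsometryEquiv.mul_apply, IsometryEquiv.apply_inv_self] at h3
      rw [IsometryEquiv.mul_apply]
      simp only at h2
      rw [← dist_smul (g0 * g1⁻¹)] at h2
      have h6 : (g0 * g1⁻¹) • g1 • (v0 : ℂ → X) (e1 z) = g0 • (v0 : ℂ → X) (e1 z) := by
        rw [smul_smul, inv_mul_cancel_right]
      rw [h6] at h2
      have h4 := dist_triangle ((g0 * g1⁻¹) • h z) (g0 • (v0 : ℂ → X) (e1 z))
        ((u0 : ℂ → X) (e0⁻¹ (e1 z)))
      rw [dist_comm (g0 • (v0 : ℂ → X) (e1 z))] at h4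
      linarith)
  refine ⟨fun x => Φ x, R + 1, fun x => hMS (Φ x).2.1, fun x => (Φ x).2.2,
    fun x y hxy g => ?_⟩
  rintro ⟨e, n, hn⟩
  obtain ⟨N, hN⟩ := hΦ x y hxy
  obtain ⟨m, hm⟩ := exists_nat_ge n
  obtain ⟨k, hk⟩ := exists_nat_ge (dist (g • x0) x0)
  refine hN (max N (max m k)) (le_max_left _ _) ⟨g, hk.trans ?_, e, fun z =>
    (hn z).trans (hm.trans ?_)⟩
  · exact_mod_cast (le_max_right m k).trans (le_max_right N _)
  · exact_mod_cast (le_max_left m k).trans (le_max_right N _)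

end

end Pool.Agent.W620.FL
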